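import Mathlib
import Pool.Agent.X200.QpLusin

/-!
MP_aa6101_gt, Q1: there is (in ZFC) an uncountable Tychonoff space `X`, with an uncountable nowhere
dense subset, such that `Q_p(X, ℝ)` is Fréchet-Urysohn.
-/

set_option autoImplicit false

namespace Pool.Agent.Results.MP_aa6101_gt.NotLusin

open Set Topology

/-- Quasicontinuous functions. -/
def QC {X : Type*} [TopologicalSpace X] (f : X → ℝ) : Prop :=
  ∀ (x : X) (U : Set X), IsOpen U → x ∈ U → ∀ V : Set ℝ, IsOpen V → f x ∈ V →
    ∃ W : Set X, IsOpen W ∧ W.Nonempty ∧ W ⊆ U ∧ f '' W ⊆ V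

/-- `Q_p(X, ℝ)`: the quasicontinuous functions with the topology of pointwise convergence. -/
def Qp (X : Type*) [TopologicalSpace X] : Type _ := {f : X → ℝ // QC f}

instance (X : Type*) [TopologicalSpace X] : TopologicalSpace (Qp X) :=
  inferInstanceAs (TopologicalSpace {f : X → ℝ // QC f})

/-- Lusin spaces in the sense of Kunen (the Hausdorff axiom is stated separately). -/
def Lusin (X : Type*) [TopologicalSpace X] : Prop :=
  (∀ N : Set X, IsNowhereDense N → N.Countable) ∧ {x : X | IsOpen ({x} : Set X)}.Countable ∧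
    ¬ Countable X

theorem result : ∃ (X : Type) (_ : TopologicalSpace X), T35Space X ∧
    FrechetUrysohnSpace (Qp X) ∧ ¬ Countable X ∧ ¬ Lusin X :=
  Pool.Agent.X200.QpLusin.main

end Pool.Agent.Results.MP_aa6101_gt.NotLusin
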